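import Pool.Agent.Helper17.DF.Fast
import Pool.Agent.Helper76.CT.Enum

set_option autoImplicit false

/-!
DF-2: the recursor version of the enumeration of colourings.
-/

namespace Pool.Agent.Helper17.CT

private theorem df2_andR {x y : Bool} (h : andR x y = true) : x = true ∧ y = true := by
  cases x with
  | false => exact absurd (show false = true from h) (by decide)
  | true => exact ⟨rfl, h⟩

private theorem df2_andR_eq (x y : Bool) : andR x y = (x && y) := by
  cases x <;> rfl

private theorem df2_allLR {α : Type} (g : α → Bool) (l : List α) (h : allLR g l = true) :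
    ∀ a ∈ l, g a = true := by
  induction l with
  | nil => intro a ha; cases ha
  | cons b l ih =>
    have h0 : allLR g (b :: l) = andR (g b) (allLR g l) := rfl
    rw [h0] at h
    obtain ⟨h1, h2⟩ := df2_andR h
    intro a ha
    rcases List.mem_cons.1 ha with rfl | ha
    · exact h1
    · exact ih h2 a ha

private theorem df2_allL {α : Type} (g : α → Bool) (l : List α) (h : ∀ a ∈ l, g a = true) :
    allL g l = true := by
  induction l with
  | nil => rfl
  | cons b l ih =>
    have h0 : allL g (b :: l) = (g b && allL g l) := rfl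
    rw [h0, h b List.mem_cons_self, ih (fun a ha => h a (List.mem_cons_of_mem _ ha))]
    rfl

private theorem df2_step (F : Code) (t t' : ℕ → Bool)
    (h : ∀ G, (∀ x < 3 * F.n, d2 G x < 3) → t G = true → t' G = true) (f : ℕ) :
    ∀ v G : ℕ, v + f = F.n → G < 4 ^ (3 * v) → (∀ x < 3 * v, d2 G x < 3) →
      enumR F t f v G = true → enum F t' f v G = true := by
  induction f with
  | zero =>
    intro v G hv _ hd h1
    have hv' : v = F.n := by omega
    subst hv'
    exact h G hd h1
  | succ f ih =>
    intro v G hv hG hd h1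
    have e1 : enumR F t (f + 1) v G =
        allLR (fun π => Bool.rec true (enumR F t f (v + 1) (G + π <<< (6 * v)))
         (andR (okD F G v (3 * v) (d2 π 0))
        (andR (okD F G v (3 * v + 1) (d2 π 1))
          (okD F G v (3 * v + 2) (d2 π 2))))) perms6 := rfl
    have e2 : enum F t' (f + 1) v G = allL (fun π => cond ((okD F G v (3 * v) (d2 π 0)) &&
        ((okD F G v (3 * v + 1) (d2 π 1)) && (okD F G v (3 * v + 2) (d2 π 2))))
          (enum F t' f (v + 1) (G + π <<< (6 * v))) true) perms6 := rfl
    rw [e2]
    rw [e1] at h1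
    apply df2_allL
    intro π hπ
    have h2 := df2_allLR _ _ h1 π hπ
    rw [df2_andR_eq, df2_andR_eq] at h2
    cases hc : ((okD F G v (3 * v) (d2 π 0)) &&
        ((okD F G v (3 * v + 1) (d2 π 1)) && (okD F G v (3 * v + 2) (d2 π 2)))) with
    | false => rfl
    | true =>
      rw [hc] at h2
      have h3 : enumR F t f (v + 1) (G + π <<< (6 * v)) = true := h2
      rw [cond_true]
      have hpi : π < 64 ∧ d2 π 0 < 3 ∧ d2 π 1 < 3 ∧ d2 π 2 < 3 := by
        have hall : ∀ π ∈ perms6, π < 64 ∧ d2 π 0 < 3 ∧ d2 π 1 < 3 ∧ d2 π 2 < 3 := by decide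
        exact hall π hπ
      obtain ⟨hlt, hp0, hp1, hp2⟩ := hpi
      have hsh : π <<< (6 * v) = π * 4 ^ (3 * v) := by
        rw [Nat.shiftLeft_eq, show 6 * v = 2 * (3 * v) by ring, pow_mul,
          show (2 : ℕ) ^ 2 = 4 by norm_num]
      rw [hsh] at h3 ⊢
      refine ih (v + 1) _ (by omega) ?_ ?_ h3
      · have h4 : 4 ^ (3 * (v + 1)) = 64 * 4 ^ (3 * v) := by
          rw [mul_add, pow_add]; ring
        rw [h4]
        have h5 : π * 4 ^ (3 * v) ≤ 63 * 4 ^ (3 * v) := Nat.mul_le_mul_right _ (by omega)
        omega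
      · intro x hx
        by_cases hx3 : x < 3 * v
        · rw [e1_low π hx3]
          exact hd x hx3
        · obtain ⟨j, rfl⟩ : ∃ j, x = 3 * v + j := ⟨x - 3 * v, by omega⟩
          rw [e1_high π j hG]
          have hj : j = 0 ∨ j = 1 ∨ j = 2 := by omega
          rcases hj with rfl | rfl | rfl
          · exact hp0
          · exact hp1
          · exact hp2

/-- DF-2. The recursor version of the enumeration implies the structural one. -/
theorem enumR_imp (F : Code) (t t' : ℕ → Bool)
    (h : ∀ G, (∀ x < 3 * F.n, d2 G x < 3) → t G = true → t' G = true)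
    (h1 : enumR F t (Nat.pred F.n) 1 36 = true) : enum F t' (Nat.pred F.n) 1 36 = true := by
  rcases Nat.eq_zero_or_pos F.n with hn | hn
  · rw [hn] at h1 ⊢
    exact h 36 (by intro x hx; rw [hn] at hx; omega) h1
  · refine df2_step F t t' h (Nat.pred F.n) 1 36 ?_ (by norm_num) ?_ h1
    · rw [Nat.pred_eq_sub_one]; omega
    · intro x hx
      have hx' : x = 0 ∨ x = 1 ∨ x = 2 := by omega
      rcases hx' with rfl | rfl | rfl
      · decide
      · decide
      · decide

end Pool.Agent.Helper17.CT
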